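import Mathlib

set_option autoImplicit false

open Finset

namespace Pool.Agent.TH350.SC

variable {p : ℕ} [hp : Fact p.Prime]

/-- inverse in `ℤ_p`, zero for multiples of `p` -/
noncomputable def inv (p : ℕ) [Fact p.Prime] (a : ℕ) : ℤ_[p] := Ring.inverse ((a : ℕ) : ℤ_[p])

lemma unit_iff (a : ℕ) : IsUnit ((a : ℕ) : ℤ_[p]) ↔ ¬ p ∣ a := by
  rw [PadicInt.isUnit_iff]
  constructor
  · intro h hd
    have := (PadicInt.norm_int_lt_one_iff_dvd (p := p) (a : ℤ)).2 (by exact_mod_cast hd)
    push_cast at this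
    rw [h] at this
    exact lt_irrefl _ this
  · intro h
    by_contra hne
    have h1 : ‖((a : ℕ) : ℤ_[p])‖ < 1 := lt_of_le_of_ne (PadicInt.norm_le_one _) hne
    have := (PadicInt.norm_int_lt_one_iff_dvd (p := p) (a : ℤ)).1 (by push_cast; exact h1)
    exact h (by exact_mod_cast this)

lemma inv_mul {a : ℕ} (h : ¬ p ∣ a) : inv p a * (a : ℤ_[p]) = 1 :=
  Ring.inverse_mul_cancel _ ((unit_iff a).2 h)

lemma inv_zero {a : ℕ} (h : p ∣ a) : inv p a = 0 :=
  Ring.inverse_non_unit _ (fun hu => (unit_iff a).1 hu h)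

lemma inv_mul_nat (c a : ℕ) : inv p (c * a) = inv p c * inv p a := by
  unfold inv
  push_cast
  rw [Ring.mul_inverse_rev, mul_comm]

/-- the geometric sum -/
lemma geo (hp2 : p ≠ 2) (j : ℕ) : ∀ t : ℤ_[p], (p : ℤ_[p]) ∣ t → 1 ≤ j →
    ∃ w : ℤ_[p], ∑ i ∈ range j, (1 + t) ^ i = (j : ℤ_[p]) * (1 + t * w) := by
  have hstep : ∀ (t : ℤ_[p]) (i : ℕ), t ∣ (1 + t) ^ i - 1 := by
    intro t i
    have := sub_dvd_pow_sub_pow (1 + t) 1 i
    simpa using this
  induction j using Nat.strong_induction_on with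
  | _ j ih =>
  intro t ht hj
  by_cases hd : p ∣ j
  · obtain ⟨l, rfl⟩ := hd
    have hl : 1 ≤ l := by
      rcases Nat.eq_zero_or_pos l with h | h
      · subst h; simp at hj
      · exact h
    have hlt : l < p * l := by
      have := hp.out.two_le
      nlinarith
    -- the case p
    have hA : ∃ w : ℤ_[p], ∑ i ∈ range p, (1 + t) ^ i = (p : ℤ_[p]) * (1 + t * w) := by
      have h1 : ∀ i : ℕ, ∃ u : ℤ_[p], (1 + t) ^ i = 1 + (i : ℤ_[p]) * t + t ^ 2 * u := by
        intro i
        induction i with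
        | zero => exact ⟨0, by simp⟩
        | succ i ih1 =>
          obtain ⟨u, hu⟩ := ih1
          refine ⟨u + i + t * u, ?_⟩
          rw [pow_succ, hu]; push_cast; ring
      choose u hu using h1
      obtain ⟨s, hs⟩ := ht
      have h3 : ∑ i ∈ range p, (i : ℤ_[p]) = (p : ℤ_[p]) * (((p - 1) / 2 : ℕ) : ℤ_[p]) := by
        have h4 := Finset.sum_range_id p
        have h5 : p * (p - 1) / 2 = p * ((p - 1) / 2) := by
          have hodd := hp.out.odd_of_ne_two hp2
          obtain ⟨k, hk⟩ := hodd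
          subst hk
          rw [show 2 * k + 1 - 1 = 2 * k by omega, Nat.mul_div_cancel_left _ (by norm_num),
            show (2 * k + 1) * (2 * k) = 2 * ((2 * k + 1) * k) by ring,
            Nat.mul_div_cancel_left _ (by norm_num)]
        rw [h5] at h4
        rw [← Nat.cast_sum, h4, Nat.cast_mul]
      refine ⟨(((p - 1) / 2 : ℕ) : ℤ_[p]) + s * ∑ i ∈ range p, u i, ?_⟩
      rw [Finset.sum_congr rfl (fun i _ => hu i)]
      rw [Finset.sum_add_distrib, Finset.sum_add_distrib, ← Finset.sum_mul, ← Finset.mul_sum, h3]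
      simp only [Finset.sum_const, Finset.card_range, nsmul_eq_mul, mul_one]
      have : t ^ 2 = (p : ℤ_[p]) * s * t := by rw [sq]; nth_rw 1 [hs]
      rw [this]; ring
    obtain ⟨w1, hw1⟩ := hA
    obtain ⟨v, hv⟩ := hstep t p
    have hpt : (p : ℤ_[p]) ∣ t * v := dvd_mul_of_dvd_left ht v
    obtain ⟨w2, hw2⟩ := ih l hlt (t * v) hpt hl
    have hprod : ∑ i ∈ range (p * l), (1 + t) ^ i =
        (∑ i ∈ range p, (1 + t) ^ i) * ∑ i ∈ range l, ((1 + t) ^ p) ^ i := by
      clear hj hlt hw2 w2 ih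
      induction l with
      | zero => simp
      | succ l ihl =>
        rw [Nat.mul_succ, Finset.sum_range_add, Finset.sum_range_succ, mul_add]
        congr 1
        · by_cases h0 : l = 0
          · subst h0; simp
          · exact ihl (by omega)
        · rw [Finset.sum_mul]
          refine Finset.sum_congr rfl fun i _ => ?_
          rw [pow_add, pow_mul, mul_comm]
    have hv' : (1 + t) ^ p = 1 + t * v := by rw [← hv]; ring
    rw [hprod, hw1, hv', hw2]
    refine ⟨w1 + v * w2 + t * w1 * v * w2, ?_⟩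
    push_cast
    ring
  · have hu : IsUnit ((j : ℕ) : ℤ_[p]) := (unit_iff j).2 hd
    choose v hv using hstep t
    refine ⟨inv p j * ∑ i ∈ range j, v i, ?_⟩
    have h1 : ∑ i ∈ range j, (1 + t) ^ i = ∑ i ∈ range j, (1 + t * v i) :=
      Finset.sum_congr rfl fun i _ => by rw [← hv i]; ring
    rw [h1, Finset.sum_add_distrib, ← Finset.mul_sum]
    simp only [Finset.sum_const, Finset.card_range, nsmul_eq_mul, mul_one]
    have h2 := inv_mul (p := p) hd
    linear_combination (-(t * ∑ i ∈ range j, v i)) * h2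

end Pool.Agent.TH350.SC
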