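import Mathlib
import Pool.Agent.TH350.SC.Geo

set_option autoImplicit false

open Finset

namespace Pool.Agent.TH350.SC

lemma perm_sum {A : Type*} [AddCommMonoid A] {M c : ℕ} (hM : 0 < M) (hc : Nat.Coprime M c) (k : ℕ)
    (f : ℕ → A) : ∑ a ∈ range M, f ((k + c * a) % M) = ∑ a ∈ range M, f a := by
  have hinj : Set.InjOn (fun a => (k + c * a) % M) (range M) := by
    intro a ha b hb h
    have h1 : k + c * a ≡ k + c * b [MOD M] := h
    have h2 : c * a ≡ c * b [MOD M] := Nat.ModEq.add_left_cancel' k h1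
    have h3 : a ≡ b [MOD M] := Nat.ModEq.cancel_left_of_coprime hc h2
    have ha' : a < M := by simpa using ha
    have hb' : b < M := by simpa using hb
    exact Nat.ModEq.eq_of_lt_of_lt h3 ha' hb'
  have himg : (range M).image (fun a => (k + c * a) % M) = range M := by
    apply Finset.eq_of_subset_of_card_le
    · intro x hx
      rw [Finset.mem_image] at hx
      obtain ⟨a, _, rfl⟩ := hx
      exact Finset.mem_range.2 (Nat.mod_lt _ hM)
    · rw [Finset.card_image_of_injOn hinj]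
  conv_rhs => rw [← himg, Finset.sum_image hinj]

lemma sum_split {A : Type*} [AddCommMonoid A] (M n : ℕ) (f : ℕ → A) :
    ∑ a ∈ range (M * n), f a = ∑ i ∈ range n, ∑ a ∈ range M, f (M * i + a) := by
  induction n with
  | zero => simp
  | succ n ih => rw [Nat.mul_succ, Finset.sum_range_add, Finset.sum_range_succ, ih]

variable {p : ℕ} [hp : Fact p.Prime]

lemma inv_sub {x y : ℕ} (hx : ¬ p ∣ x) (hy : ¬ p ∣ y) :
    inv p x - inv p y = inv p x * inv p y * ((y : ℤ_[p]) - x) := by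
  linear_combination (-inv p x) * (inv_mul (p := p) hy) + (inv p y) * (inv_mul (p := p) hx)

lemma inv_congr {x y M s k : ℕ} (hpM : p ∣ M) (h : x = y + M * s) (hk : 1 ≤ k) :
    (M : ℤ_[p]) ∣ inv p x ^ k - inv p y ^ k := by
  by_cases hy : p ∣ y
  · have hx : p ∣ x := by rw [h]; exact dvd_add hy (dvd_mul_of_dvd_left hpM s)
    rw [inv_zero hx, inv_zero hy]; simp
  · have hx : ¬ p ∣ x := by
      intro hx; apply hy
      rw [h] at hx
      exact (Nat.dvd_add_left (dvd_mul_of_dvd_left hpM s)).1 hx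
    refine dvd_trans ?_ (sub_dvd_pow_sub_pow _ _ k)
    rw [inv_sub hx hy, h]
    refine ⟨- (s : ℤ_[p]) * (inv p (y + M * s) * inv p y), ?_⟩
    push_cast; ring

/-- one term of Voronoi's congruence -/
lemma term (hp2 : p ≠ 2) {N c j : ℕ} (hN : 1 ≤ N) (hj : 1 ≤ j) (hc : ¬ p ∣ c) (a : ℕ) :
    ∃ w : ℤ_[p], inv p (c * a) ^ j - inv p ((0 + c * a) % p ^ N) ^ j =
      -((j : ℤ_[p]) * (p : ℤ_[p]) ^ N * (((c * a / p ^ N : ℕ) : ℤ_[p]) * inv p (c * a) ^ (j + 1) +
        (p : ℤ_[p]) ^ N * w)) := by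
  have hpN : p ∣ p ^ N := dvd_pow_self p (by omega)
  rw [zero_add]
  set x := c * a with hx
  set y := x % p ^ N with hy
  set q := x / p ^ N with hq
  have hxy : x = y + p ^ N * q := (Nat.mod_add_div x (p ^ N)).symm
  by_cases hpa : p ∣ x
  · have hpy : p ∣ y := (Nat.dvd_mod_iff hpN).2 hpa
    refine ⟨0, ?_⟩
    rw [inv_zero hpa, inv_zero hpy]
    simp [show j ≠ 0 by omega]
  · have hpy : ¬ p ∣ y := fun h => hpa ((Nat.dvd_mod_iff hpN).1 h)
    have hX := inv_mul (p := p) hpa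
    have hY := inv_mul (p := p) hpy
    have hxy' : (x : ℤ_[p]) = y + (p : ℤ_[p]) ^ N * q := by exact_mod_cast hxy
    set t : ℤ_[p] := (p : ℤ_[p]) ^ N * q * inv p y with ht
    have hpt : (p : ℤ_[p]) ∣ t := by
      rw [ht]
      exact dvd_mul_of_dvd_left (dvd_mul_of_dvd_left (dvd_pow_self _ (by omega)) _) _
    obtain ⟨w, hw⟩ := geo hp2 j t hpt hj
    have h1 : 1 + t = x * inv p y := by rw [ht, hxy']; linear_combination -hY
    have h2 : (1 + t) ^ j - 1 = t * ((j : ℤ_[p]) * (1 + t * w)) := by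
      rw [← hw]
      have := mul_geom_sum (1 + t) j
      rw [← this]; ring
    have h3 : inv p x ^ j * ((1 + t) ^ j) = inv p y ^ j := by
      rw [h1, ← mul_pow]
      congr 1
      linear_combination (inv p y) * hX
    have h4 : inv p x ^ j - inv p y ^ j = - (inv p x ^ j * (t * ((j : ℤ_[p]) * (1 + t * w)))) := by
      rw [← h3, ← h2]; ring
    have h5 : inv p y = inv p x + inv p x * inv p y * ((p : ℤ_[p]) ^ N * q) := by
      have := inv_sub (p := p) hpa hpy
      rw [hxy'] at this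
      linear_combination -this
    refine ⟨inv p x ^ j * q * (inv p x * inv p y * q) + inv p x ^ j * q * inv p y *
      (q * inv p y * w), ?_⟩
    rw [h4]
    have h6 : inv p x ^ j * (t * ((j : ℤ_[p]) * (1 + t * w))) =
        (j : ℤ_[p]) * (p : ℤ_[p]) ^ N * (q * inv p x ^ j * inv p y + (p : ℤ_[p]) ^ N *
          (inv p x ^ j * q * inv p y * (q * inv p y * w))) := by
      rw [ht]; ring
    rw [h6]
    have h7 : (q : ℤ_[p]) * inv p x ^ j * inv p y = q * inv p x ^ (j + 1) +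
        (p : ℤ_[p]) ^ N * (inv p x ^ j * q * (inv p x * inv p y * q)) := by
      nth_rw 1 [h5]; ring
    rw [h7]; ring

/-- the sum `Σ_{a < p^N, p ∤ a} a^{-j}` -/
noncomputable def SS (p : ℕ) [Fact p.Prime] (N j : ℕ) : ℤ_[p] := ∑ a ∈ range (p ^ N), inv p a ^ j

noncomputable def TT (p : ℕ) [Fact p.Prime] (c N j : ℕ) : ℤ_[p] :=
  ∑ a ∈ range (p ^ N), ((c * a / p ^ N : ℕ) : ℤ_[p]) * inv p (c * a) ^ (j + 1)

lemma cop {N c : ℕ} (hc : ¬ p ∣ c) : Nat.Coprime (p ^ N) c :=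
  Nat.Coprime.pow_left N ((hp.out.coprime_iff_not_dvd).2 hc)

lemma voronoi (hp2 : p ≠ 2) {N c j : ℕ} (hN : 1 ≤ N) (hj : 1 ≤ j) (hc : ¬ p ∣ c) :
    ∃ w : ℤ_[p], (1 - inv p c ^ j) * SS p N j =
      (j : ℤ_[p]) * (p : ℤ_[p]) ^ N * (TT p c N j + (p : ℤ_[p]) ^ N * w) := by
  choose w hw using fun a => term (p := p) hp2 hN hj hc a
  refine ⟨∑ a ∈ range (p ^ N), w a, ?_⟩
  have h1 := Finset.sum_congr (rfl : range (p ^ N) = range (p ^ N)) (fun a _ => hw a)
  rw [Finset.sum_sub_distrib, perm_sum (pow_pos hp.out.pos N) (cop hc) 0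
    (fun a => inv p a ^ j), Finset.sum_neg_distrib, ← Finset.mul_sum, Finset.sum_add_distrib,
    ← Finset.mul_sum] at h1
  have h2 : ∑ a ∈ range (p ^ N), inv p (c * a) ^ j = inv p c ^ j * SS p N j := by
    unfold SS
    rw [Finset.mul_sum]
    exact Finset.sum_congr rfl fun a _ => by rw [inv_mul_nat, mul_pow]
  rw [h2] at h1
  unfold TT
  unfold SS at *
  linear_combination -h1

/-- odd power sums vanish modulo `p^N` -/
lemma odd_sum (hp2 : p ≠ 2) {N k : ℕ} (hN : 1 ≤ N) (hk : Odd k) :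
    (p : ℤ_[p]) ^ N ∣ SS p N k := by
  have hk1 : 1 ≤ k := hk.pos
  have hpN : p ∣ p ^ N := dvd_pow_self p (by omega)
  have hpos : 1 ≤ p ^ N := Nat.one_le_pow _ _ hp.out.pos
  have hM1 : ¬ p ∣ p ^ N - 1 := by
    intro h
    have h2 := (Nat.dvd_sub_iff_right hpos hpN).1 h
    exact hp.out.one_lt.ne' (Nat.dvd_one.1 h2)
  have h1 := perm_sum (pow_pos hp.out.pos N) (cop (N := N) hM1) 0 (fun a => inv p a ^ k)
  have h2 : (p : ℤ_[p]) ^ N ∣ ∑ a ∈ range (p ^ N), inv p ((p ^ N - 1) * a) ^ k -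
      ∑ a ∈ range (p ^ N), inv p ((0 + (p ^ N - 1) * a) % p ^ N) ^ k := by
    rw [← Finset.sum_sub_distrib]
    refine Finset.dvd_sum fun a _ => ?_
    have := inv_congr (p := p) (x := 0 + (p ^ N - 1) * a) (y := (0 + (p ^ N - 1) * a) % p ^ N)
      (M := p ^ N) (s := (0 + (p ^ N - 1) * a) / p ^ N) hpN (Nat.mod_add_div _ _).symm hk1
    rw [zero_add] at this ⊢
    push_cast at this
    exact this
  have h3 : ∑ a ∈ range (p ^ N), inv p ((p ^ N - 1) * a) ^ k = inv p (p ^ N - 1) ^ k * SS p N k := by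
    unfold SS
    rw [Finset.mul_sum]
    exact Finset.sum_congr rfl fun a _ => by rw [inv_mul_nat, mul_pow]
  rw [h1, h3] at h2
  have h4 : (p : ℤ_[p]) ^ N ∣ inv p (p ^ N - 1) ^ k - (-1) ^ k := by
    refine dvd_trans ?_ (sub_dvd_pow_sub_pow _ _ k)
    refine ⟨inv p (p ^ N - 1), ?_⟩
    have := inv_mul (p := p) hM1
    rw [Nat.cast_sub hpos] at this
    push_cast at this
    linear_combination -this
  rw [hk.neg_one_pow] at h4
  have h5 : (p : ℤ_[p]) ^ N ∣ 2 * SS p N k := by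
    have h6 := dvd_sub (dvd_mul_of_dvd_left h4 (SS p N k)) h2
    have h7 : (inv p (p ^ N - 1) ^ k - -1) * SS p N k -
        (inv p (p ^ N - 1) ^ k * SS p N k - ∑ a ∈ range (p ^ N), inv p a ^ k) = 2 * SS p N k := by
      unfold SS; ring
    rwa [h7] at h6
  have h2' : ¬ p ∣ 2 := fun h => hp2 ((Nat.prime_dvd_prime_iff_eq hp.out Nat.prime_two).1 h)
  have h8 := dvd_mul_of_dvd_right h5 (inv p 2)
  have h9 := inv_mul (p := p) h2'
  have : inv p 2 * (2 * SS p N k) = SS p N k := by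
    push_cast at h9
    linear_combination (SS p N k) * h9
  rwa [this] at h8

lemma floor_sum {c M a : ℕ} (hM : 0 < M) (hc : ¬ p ∣ c) :
    2 * (∑ i ∈ range p, c * (M * i + a) / (M * p)) + (p - 1) = 2 * (c * a / M) + c * (p - 1) := by
  set y := c * a / M with hy
  have h0 : ∀ i, c * (M * i + a) / (M * p) = (y + c * i) / p := by
    intro i
    rw [← Nat.div_div_eq_div_mul]
    congr 1
    rw [show c * (M * i + a) = c * a + M * (c * i) by ring, Nat.add_mul_div_left _ _ hM]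
  rw [Finset.sum_congr rfl fun i _ => h0 i]
  have h1 : ∑ i ∈ range p, (y + c * i) % p = ∑ i ∈ range p, i := by
    have hcop : Nat.Coprime p c := (hp.out.coprime_iff_not_dvd).2 hc
    exact perm_sum hp.out.pos hcop y (fun i => i)
  have h2 : ∑ i ∈ range p, (y + c * i) =
      ∑ i ∈ range p, (y + c * i) % p + p * ∑ i ∈ range p, (y + c * i) / p := by
    rw [Finset.mul_sum, ← Finset.sum_add_distrib]
    exact Finset.sum_congr rfl fun i _ => (Nat.mod_add_div _ _).symm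
  have h3 : (∑ i ∈ range p, i) * 2 = p * (p - 1) := Finset.sum_range_id_mul_two p
  rw [h1, Finset.sum_add_distrib, ← Finset.mul_sum] at h2
  simp only [Finset.sum_const, Finset.card_range, smul_eq_mul] at h2
  have hpp := hp.out.pos
  set G := ∑ i ∈ range p, (y + c * i) / p with hG
  set I := ∑ i ∈ range p, i with hI
  apply Nat.eq_of_mul_eq_mul_left hpp
  calc p * (2 * G + (p - 1)) = 2 * (p * G) + p * (p - 1) := by ring
    _ = 2 * (p * G) + I * 2 := by rw [h3]
    _ = 2 * (I + p * G) := by ring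
    _ = 2 * (p * y + c * I) := by rw [h2]
    _ = 2 * (p * y) + c * (I * 2) := by ring
    _ = p * (2 * y + c * (p - 1)) := by rw [h3]; ring

/-- `T_{N+1} ≡ T_N` modulo `p^N` -/
lemma TT_step (hp2 : p ≠ 2) {N c j : ℕ} (hN : 1 ≤ N) (hj : Even j) (hc : ¬ p ∣ c) :
    (p : ℤ_[p]) ^ N ∣ TT p c (N + 1) j - TT p c N j := by
  have hpN : p ∣ p ^ N := dvd_pow_self p (by omega)
  have hk : Odd (j + 1) := hj.add_one
  have h1 : (p : ℤ_[p]) ^ N ∣ TT p c (N + 1) j - ∑ i ∈ range p, ∑ a ∈ range (p ^ N),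
      ((c * (p ^ N * i + a) / (p ^ N * p) : ℕ) : ℤ_[p]) * inv p (c * a) ^ (j + 1) := by
    unfold TT
    rw [pow_succ, sum_split, ← Finset.sum_sub_distrib]
    refine Finset.dvd_sum fun i _ => ?_
    rw [← Finset.sum_sub_distrib]
    refine Finset.dvd_sum fun a _ => ?_
    rw [← mul_sub]
    refine dvd_mul_of_dvd_right ?_ _
    have := inv_congr (p := p) (x := c * (p ^ N * i + a)) (y := c * a) (M := p ^ N) (s := c * i)
      (k := j + 1) hpN (by ring) (by omega)
    push_cast at this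
    exact this
  have h2 : 2 * ∑ i ∈ range p, ∑ a ∈ range (p ^ N),
      ((c * (p ^ N * i + a) / (p ^ N * p) : ℕ) : ℤ_[p]) * inv p (c * a) ^ (j + 1) =
      2 * TT p c N j + ((c : ℤ_[p]) * (p - 1 : ℕ) - (p - 1 : ℕ)) * (inv p c ^ (j + 1) *
        SS p N (j + 1)) := by
    rw [Finset.sum_comm]
    unfold TT SS
    rw [Finset.mul_sum, Finset.mul_sum, Finset.mul_sum, Finset.mul_sum, ← Finset.sum_add_distrib]
    refine Finset.sum_congr rfl fun a _ => ?_
    have h3 := floor_sum (p := p) (c := c) (M := p ^ N) (a := a) (pow_pos hp.out.pos N) hc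
    have h4 : (2 : ℤ_[p]) * (∑ i ∈ range p, ((c * (p ^ N * i + a) / (p ^ N * p) : ℕ) : ℤ_[p])) +
        ((p - 1 : ℕ) : ℤ_[p]) = 2 * ((c * a / p ^ N : ℕ) : ℤ_[p]) + (c : ℤ_[p]) *
          ((p - 1 : ℕ) : ℤ_[p]) := by
      have := congrArg (fun n : ℕ => (n : ℤ_[p])) h3
      simpa only [Nat.cast_add, Nat.cast_mul, Nat.cast_sum, Nat.cast_ofNat] using this
    rw [← Finset.sum_mul, inv_mul_nat, mul_pow]
    linear_combination (inv p c ^ (j + 1) * inv p a ^ (j + 1)) * h4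
  have h5 : (p : ℤ_[p]) ^ N ∣ 2 * (TT p c (N + 1) j - TT p c N j) := by
    have h6 := dvd_mul_of_dvd_right h1 2
    have h7 := odd_sum (p := p) hp2 hN hk
    have h8 := dvd_mul_of_dvd_right (dvd_mul_of_dvd_right h7 (inv p c ^ (j + 1)))
      ((c : ℤ_[p]) * (p - 1 : ℕ) - (p - 1 : ℕ))
    have h9 := dvd_add h6 h8
    have h10 : 2 * (TT p c (N + 1) j - ∑ i ∈ range p, ∑ a ∈ range (p ^ N),
      ((c * (p ^ N * i + a) / (p ^ N * p) : ℕ) : ℤ_[p]) * inv p (c * a) ^ (j + 1)) +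
      ((c : ℤ_[p]) * (p - 1 : ℕ) - (p - 1 : ℕ)) * (inv p c ^ (j + 1) *
        SS p N (j + 1)) = 2 * (TT p c (N + 1) j - TT p c N j) := by
      linear_combination -h2
    rwa [h10] at h9
  have h2' : ¬ p ∣ 2 := fun h => hp2 ((Nat.prime_dvd_prime_iff_eq hp.out Nat.prime_two).1 h)
  have h8 := dvd_mul_of_dvd_right h5 (inv p 2)
  have h9 := inv_mul (p := p) h2'
  have : inv p 2 * (2 * (TT p c (N + 1) j - TT p c N j)) = TT p c (N + 1) j - TT p c N j := by
    push_cast at h9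
    linear_combination (TT p c (N + 1) j - TT p c N j) * h9
  rwa [this] at h8

end Pool.Agent.TH350.SC
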