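import Mathlib
import Pool.Agent.TH350.SC.Vor
import Pool.Agent.H332R2.CastLem

set_option autoImplicit false

open Finset

namespace Pool.Agent.TH350.SC

open Pool.Agent.H332R2

variable {p : ℕ} [hp : Fact p.Prime]

/-- `(Σ_{a<p} a^k)/p ≡ B_k` modulo `p` -/
lemma powsum {k : ℕ} (hk : k + 2 ≤ p) (hk0 : 1 ≤ k) (hp3 : 3 ≤ p) :
    ((((∑ a ∈ range p, (a : ℚ) ^ k) / p : ℚ)).den : ZMod p) ≠ 0 ∧
      (((∑ a ∈ range p, (a : ℚ) ^ k) / p : ℚ) : ZMod p) = ((bernoulli k : ℚ) : ZMod p) := by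
  have hpQ : (p : ℚ) ≠ 0 := by exact_mod_cast hp.out.ne_zero
  have h1 : (∑ a ∈ range p, (a : ℚ) ^ k) / p = ∑ i ∈ range (k + 1),
      bernoulli i * (((k + 1).choose i : ℕ) : ℚ) * (((p ^ (k - i) : ℕ)) : ℚ) *
        (((k + 1 : ℕ) : ℚ))⁻¹ := by
    rw [sum_range_pow, Finset.sum_div]
    refine Finset.sum_congr rfl fun i hi => ?_
    rw [Finset.mem_range] at hi
    rw [show k + 1 - i = (k - i) + 1 by omega, pow_succ]
    push_cast
    field_simp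
  have hinv : ((((((k + 1 : ℕ) : ℚ))⁻¹ : ℚ)).den : ZMod p) ≠ 0 := by
    rw [Rat.inv_natCast_den_of_pos (Nat.succ_pos k)]
    exact nat_ne_zero (Nat.succ_pos k) (by omega)
  have hden : ∀ i ∈ range (k + 1), (((bernoulli i * (((k + 1).choose i : ℕ) : ℚ) *
      (((p ^ (k - i) : ℕ)) : ℚ) * (((k + 1 : ℕ) : ℚ))⁻¹ : ℚ)).den : ZMod p) ≠ 0 := by
    intro i hi
    rw [Finset.mem_range] at hi
    exact den_mul_ne (den_mul_ne (den_mul_ne (bern_den_ne (by omega) hp3) (den_nat_ne _))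
      (den_nat_ne _)) hinv
  have h2 := cast_sum_ok (F := ZMod p) (range (k + 1)) _ hden
  rw [h1]
  refine ⟨h2.1, ?_⟩
  rw [h2.2, Finset.sum_range_succ, Finset.sum_eq_zero, zero_add]
  · have hb := bern_den_ne (p := p) (k := k) (by omega) hp3
    rw [Rat.cast_mul_of_ne_zero (den_mul_ne (den_mul_ne hb (den_nat_ne _)) (den_nat_ne _)) hinv,
      Rat.cast_mul_of_ne_zero (den_mul_ne hb (den_nat_ne _)) (den_nat_ne _),
      Rat.cast_mul_of_ne_zero hb (den_nat_ne _)]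
    rw [Nat.sub_self, pow_zero, Rat.cast_natCast, Rat.cast_natCast, Nat.choose_succ_self_right]
    have h3 : (((((k + 1 : ℕ) : ℚ))⁻¹ : ℚ) : ZMod p) = (((k + 1 : ℕ)) : ZMod p)⁻¹ := by
      rw [Rat.cast_inv_of_ne_zero]
      · rw [Rat.cast_natCast]
      · rw [Rat.num_natCast]
        have := nat_ne_zero (p := p) (k := k + 1) (Nat.succ_pos k) (by omega)
        exact_mod_cast this
    rw [h3]
    have h4 := nat_ne_zero (p := p) (k := k + 1) (Nat.succ_pos k) (by omega)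
    rw [Nat.cast_one, mul_one, mul_assoc, mul_inv_cancel₀ h4, mul_one]
  · intro i hi
    rw [Finset.mem_range] at hi
    have hb := bern_den_ne (p := p) (k := i) (by omega) hp3
    rw [Rat.cast_mul_of_ne_zero (den_mul_ne (den_mul_ne hb (den_nat_ne _)) (den_nat_ne _)) hinv,
      Rat.cast_mul_of_ne_zero (den_mul_ne hb (den_nat_ne _)) (den_nat_ne _)]
    have h5 : ((((p ^ (k - i) : ℕ)) : ℚ) : ZMod p) = 0 := by
      rw [Rat.cast_natCast, Nat.cast_pow, ZMod.natCast_self, zero_pow (by omega)]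
    rw [h5, mul_zero, zero_mul]

/-- Voronoi's congruence modulo `p` -/
lemma vor_bern {k c : ℕ} (hk : k + 2 ≤ p) (hk0 : 1 ≤ k) (hp3 : 3 ≤ p) (hc : ¬ p ∣ c) :
    ((c : ZMod p) ^ k - 1) * ((bernoulli k : ℚ) : ZMod p) =
      (k : ZMod p) * ∑ a ∈ range p, ((c * a / p : ℕ) : ZMod p) * ((c * a : ℕ) : ZMod p) ^ (k - 1) := by
  -- integers
  have hcop : Nat.Coprime p c := (hp.out.coprime_iff_not_dvd).2 hc
  have h1 : ∀ a : ℕ, ∃ w : ℤ, ((((0 + c * a) % p : ℕ)) : ℤ) ^ k = ((c * a : ℕ) : ℤ) ^ k +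
      k * ((c * a : ℕ) : ℤ) ^ (k - 1) * (-(p : ℤ) * ((c * a / p : ℕ) : ℤ)) + (p : ℤ) ^ 2 * w := by
    intro a
    obtain ⟨v, hv⟩ := Polynomial.powAddExpansion ((c * a : ℕ) : ℤ)
      (-(p : ℤ) * ((c * a / p : ℕ) : ℤ)) k
    refine ⟨v * ((c * a / p : ℕ) : ℤ) ^ 2, ?_⟩
    have h2 : ((((0 + c * a) % p : ℕ)) : ℤ) = ((c * a : ℕ) : ℤ) + -(p : ℤ) * ((c * a / p : ℕ) : ℤ) := by
      have := Nat.mod_add_div (c * a) p
      rw [zero_add]
      have h3 : (((c * a % p + p * (c * a / p) : ℕ)) : ℤ) = ((c * a : ℕ) : ℤ) := by rw [this]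
      rw [Nat.cast_add, Nat.cast_mul p] at h3
      linarith
    rw [h2, hv]; ring
  choose w hw using h1
  have h2 := Finset.sum_congr (rfl : range p = range p) (fun a _ => hw a)
  rw [perm_sum hp.out.pos hcop 0 (fun a => (a : ℤ) ^ k), Finset.sum_add_distrib,
    Finset.sum_add_distrib, ← Finset.mul_sum] at h2
  have h3 : ∑ a ∈ range p, ((c * a : ℕ) : ℤ) ^ k = (c : ℤ) ^ k * ∑ a ∈ range p, (a : ℤ) ^ k := by
    rw [Finset.mul_sum]
    exact Finset.sum_congr rfl fun a _ => by push_cast; rw [mul_pow]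
  have h4 : ∑ a ∈ range p, (k : ℤ) * ((c * a : ℕ) : ℤ) ^ (k - 1) * (-(p : ℤ) * ((c * a / p : ℕ) : ℤ)) =
      -(p : ℤ) * (k * ∑ a ∈ range p, ((c * a / p : ℕ) : ℤ) * ((c * a : ℕ) : ℤ) ^ (k - 1)) := by
    rw [Finset.mul_sum, Finset.mul_sum]
    exact Finset.sum_congr rfl fun a _ => by ring
  rw [h3, h4] at h2
  set R : ℤ := ∑ a ∈ range p, ((c * a / p : ℕ) : ℤ) * ((c * a : ℕ) : ℤ) ^ (k - 1) with hR
  set Q : ℤ := ∑ a ∈ range p, (a : ℤ) ^ k with hQ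
  set W : ℤ := ∑ a ∈ range p, w a with hW
  have h5 : ((c : ℤ) ^ k - 1) * Q = p * (k * R - p * W) := by linear_combination -h2
  have hQQ : (∑ a ∈ range p, (a : ℚ) ^ k) = (Q : ℚ) := by rw [hQ]; push_cast; rfl
  obtain ⟨h6, h7⟩ := powsum (p := p) hk hk0 hp3
  rw [hQQ] at h6 h7
  have hpQ : (p : ℚ) ≠ 0 := by exact_mod_cast hp.out.ne_zero
  have h8 : ((((c : ℤ) ^ k - 1 : ℤ)) : ℚ) * ((Q : ℚ) / p) = ((k * R - p * W : ℤ) : ℚ) := by
    rw [mul_div_assoc', div_eq_iff hpQ]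
    have := congrArg (fun z : ℤ => (z : ℚ)) h5
    push_cast at this ⊢
    linear_combination this
  have h9 : (((((c : ℤ) ^ k - 1 : ℤ)) : ℚ)).den = 1 := Rat.den_intCast _
  have h10 := congrArg (fun q : ℚ => (q : ZMod p)) h8
  rw [Rat.cast_mul_of_ne_zero (by rw [h9]; simp) h6, h7, Rat.cast_intCast, Rat.cast_intCast] at h10
  rw [hR] at h10
  simp only [Int.cast_sub, Int.cast_mul, Int.cast_sum, Int.cast_pow, Int.cast_natCast,
    Int.cast_one] at h10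
  rw [h10, ZMod.natCast_self, zero_mul, sub_zero]

lemma toZ_inv (a : ℕ) : PadicInt.toZMod (inv p a) = ((a : ℕ) : ZMod p)⁻¹ := by
  by_cases h : p ∣ a
  · rw [inv_zero h, map_zero, (ZMod.natCast_eq_zero_iff a p).2 h, _root_.inv_zero]
  · have h1 := congrArg PadicInt.toZMod (inv_mul (p := p) h)
    rw [map_mul, map_natCast, map_one] at h1
    exact eq_inv_of_mul_eq_one_left h1

end Pool.Agent.TH350.SC
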