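import Mathlib

set_option autoImplicit false

open Finset Filter Topology

namespace Pool.Agent.TH350.SC

/-- The approximants `1/(r-1) · p^{-N} · ∑_{0 < a < p^N, p ∤ a} a^{1-r}` of `ζ_p(r) = L_p(r, ω^{1-r})`. -/
noncomputable def zetaApprox (p : ℕ) [Fact p.Prime] (r N : ℕ) : ℚ_[p] :=
  (∑ a ∈ (range (p ^ N)).filter (fun a => ¬ p ∣ a), ((a : ℚ_[p]) ^ (r - 1))⁻¹) /
    (((r : ℚ_[p]) - 1) * (p : ℚ_[p]) ^ N)

/-- `ζ_p(r)` exists (as the limit of the approximants) and is a `p`-adic unit. -/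
def ZetaUnit (p r : ℕ) : Prop :=
  ∀ [Fact p.Prime], ∃ z : ℚ_[p], ‖z‖ = 1 ∧ Tendsto (fun N => zetaApprox p r N) atTop (𝓝 z)

/-- For every `r ≥ 2` with `r ≡ 1 - 2m (mod p - 1)` the value `ζ_p(r)` is a `p`-adic unit. -/
def GoodClass (p m : ℕ) : Prop := ∀ r : ℕ, 2 ≤ r → p - 1 ∣ r - 1 + 2 * m → ZetaUnit p r

open Classical in
/-- the number of `m ≤ K`, `2m ≤ p - 3`, that are not good -/
noncomputable def badCount (p K : ℕ) : ℕ :=
  {m ∈ Finset.Icc 1 K | 2 * m + 3 ≤ p ∧ ¬ GoodClass p m}.card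

end Pool.Agent.TH350.SC
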