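import Mathlib
import Pool.Agent.TH350.SC.Bern
import Pool.Agent.TH350.SC.Defs

set_option autoImplicit false

open Finset Filter Topology

namespace Pool.Agent.TH350.SC

variable {p : ℕ} [hp : Fact p.Prime]

lemma isUnit_of {x : ℤ_[p]} (h : PadicInt.toZMod x ≠ 0) : IsUnit x := by
  by_contra hx
  have h1 : x ∈ IsLocalRing.maximalIdeal ℤ_[p] := hx
  rw [← PadicInt.ker_toZMod, RingHom.mem_ker] at h1
  exact h h1

lemma toZ_dvd {x : ℤ_[p]} {N : ℕ} (hN : 1 ≤ N) (h : (p : ℤ_[p]) ^ N ∣ x) : PadicInt.toZMod x = 0 := by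
  obtain ⟨y, rfl⟩ := h
  rw [map_mul, map_pow, map_natCast, ZMod.natCast_self, zero_pow (by omega), zero_mul]

lemma coe_inv (a : ℕ) : ((inv p a : ℤ_[p]) : ℚ_[p]) = if p ∣ a then 0 else ((a : ℚ_[p]))⁻¹ := by
  split_ifs with h
  · rw [inv_zero h]; rfl
  · have h1 := congrArg (fun z : ℤ_[p] => (z : ℚ_[p])) (inv_mul (p := p) h)
    simp only [PadicInt.coe_mul, PadicInt.coe_natCast, PadicInt.coe_one] at h1
    exact eq_inv_of_mul_eq_one_left h1

lemma coe_SS (N : ℕ) {j : ℕ} (hj : 1 ≤ j) : ((SS p N j : ℤ_[p]) : ℚ_[p]) =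
    ∑ a ∈ (range (p ^ N)).filter (fun a => ¬ p ∣ a), ((a : ℚ_[p]) ^ j)⁻¹ := by
  unfold SS
  rw [Finset.sum_filter, PadicInt.coe_sum]
  refine Finset.sum_congr rfl fun a _ => ?_
  rw [PadicInt.coe_pow, coe_inv]
  by_cases h : p ∣ a
  · simp [h, show j ≠ 0 by omega]
  · simp [h]

/-- the value of `T_1` modulo `p` -/
lemma toZ_TT {k j c : ℕ} (hk2 : 2 ≤ k) (hjk : p - 1 ∣ j + k) :
    PadicInt.toZMod (TT p c 1 j) =
      ∑ a ∈ range p, ((c * a / p : ℕ) : ZMod p) * ((c * a : ℕ) : ZMod p) ^ (k - 1) := by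
  unfold TT
  rw [map_sum, pow_one]
  refine Finset.sum_congr rfl fun a _ => ?_
  rw [map_mul, map_natCast, map_pow, toZ_inv]
  congr 1
  by_cases h0 : ((c * a : ℕ) : ZMod p) = 0
  · rw [h0, _root_.inv_zero, zero_pow (by omega), zero_pow (by omega)]
  · obtain ⟨s, hs⟩ := hjk
    rw [inv_pow]
    refine (eq_inv_of_mul_eq_one_left ?_).symm
    rw [← pow_add, show k - 1 + (j + 1) = j + k by omega, hs, pow_mul,
      ZMod.pow_card_sub_one_eq_one h0, one_pow]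

theorem key {k j : ℕ} (hk : k + 3 ≤ p) (hk2 : 2 ≤ k) (hke : Even k) (hj : 1 ≤ j)
    (hjk : p - 1 ∣ j + k) (hB : ¬ (p : ℤ) ∣ (bernoulli k).num) :
    ∃ z : ℚ_[p], ‖z‖ = 1 ∧ Tendsto (fun N => ((SS p N j : ℤ_[p]) : ℚ_[p]) /
      ((j : ℚ_[p]) * (p : ℚ_[p]) ^ N)) atTop (𝓝 z) := by
  have hp2 : p ≠ 2 := by omega
  have hodd := hp.out.odd_of_ne_two hp2
  have hje : Even j := by
    have h1 : Even (p - 1) := by
      obtain ⟨t, ht⟩ := hodd
      exact ⟨t, by omega⟩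
    have h2 : Even (j + k) := (even_iff_two_dvd.2 ((even_iff_two_dvd.1 h1).trans hjk))
    rw [Nat.even_add] at h2
    exact h2.2 hke
  -- the multiplier
  obtain ⟨g, hg⟩ := exists_pow_ne_one_of_isCyclic (G := (ZMod p)ˣ) (k := k) (by omega) (by
    rw [Nat.card_eq_fintype_card, ZMod.card_units_eq_totient, Nat.totient_prime hp.out]; omega)
  set c : ℕ := (g : ZMod p).val with hc
  have hcg : (c : ZMod p) = (g : ZMod p) := by rw [hc, ZMod.natCast_val, ZMod.cast_id]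
  have hc0 : (c : ZMod p) ≠ 0 := by rw [hcg]; exact g.ne_zero
  have hcp : ¬ p ∣ c := fun h => hc0 ((ZMod.natCast_eq_zero_iff c p).2 h)
  have hck : (c : ZMod p) ^ k ≠ 1 := by
    rw [hcg]; intro h; apply hg
    ext
    push_cast
    exact h
  -- D
  have hDu : IsUnit (1 - inv p c ^ j) := by
    apply isUnit_of
    rw [map_sub, map_one, map_pow, toZ_inv]
    intro h
    rw [sub_eq_zero] at h
    apply hck
    obtain ⟨s, hs⟩ := hjk
    have h1 : (c : ZMod p) ^ j = 1 := by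
      rw [inv_pow] at h
      exact inv_eq_one.1 h.symm
    have h2 : (c : ZMod p) ^ (j + k) = 1 := by
      rw [hs, pow_mul, ZMod.pow_card_sub_one_eq_one hc0, one_pow]
    rw [pow_add, h1, one_mul] at h2
    exact h2
  obtain ⟨D, hD⟩ := hDu
  -- T_1
  have hT1 : PadicInt.toZMod (TT p c 1 j) ≠ 0 := by
    rw [toZ_TT hk2 hjk]
    intro h0
    have h1 := vor_bern (p := p) (k := k) (c := c) (by omega) (by omega) (by omega) hcp
    rw [h0, mul_zero, mul_eq_zero] at h1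
    rcases h1 with h1 | h1
    · exact hck (sub_eq_zero.1 h1)
    · rw [Rat.cast_def, div_eq_zero_iff] at h1
      rcases h1 with h1 | h1
      · exact hB ((ZMod.intCast_zmod_eq_zero_iff_dvd _ _).1 h1)
      · exact Pool.Agent.H332R2.bern_den_ne (p := p) (k := k) (by omega) (by omega) h1
  have hTN : ∀ N, PadicInt.toZMod (TT p c (N + 1) j) ≠ 0 := by
    intro N
    induction N with
    | zero => exact hT1
    | succ N ih =>
      have h1 := toZ_dvd (by omega) (TT_step (p := p) (N := N + 1) (c := c) hp2 (by omega) hje hcp)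
      rw [map_sub, sub_eq_zero] at h1
      rw [h1]; exact ih
  choose w hw using fun N : ℕ => voronoi (p := p) (N := N + 1) (c := c) hp2 (by omega) hj hcp
  set V : ℕ → ℤ_[p] := fun N => ((D⁻¹ : (ℤ_[p])ˣ) : ℤ_[p]) *
    (TT p c (N + 1) j + (p : ℤ_[p]) ^ (N + 1) * w N) with hV
  have hVn : ∀ N, ‖V N‖ = 1 := by
    intro N
    rw [← PadicInt.isUnit_iff]
    refine (Units.isUnit _).mul (isUnit_of ?_)
    rw [map_add, map_mul, map_pow, map_natCast, ZMod.natCast_self, zero_pow (by omega), zero_mul,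
      add_zero]
    exact hTN N
  have hpinv : ‖(p : ℤ_[p])‖ = (p : ℝ)⁻¹ := PadicInt.norm_p
  have hdist : ∀ N, dist (V N) (V (N + 1)) ≤ 1 * ((p : ℝ)⁻¹) ^ N := by
    intro N
    rw [dist_comm, dist_eq_norm, one_mul]
    have h1 : (p : ℤ_[p]) ^ (N + 1) ∣ V (N + 1) - V N := by
      rw [hV]
      simp only
      rw [← mul_sub]
      refine dvd_mul_of_dvd_right ?_ _
      have h2 := TT_step (p := p) (N := N + 1) (c := c) hp2 (by omega) hje hcp
      have h3 : TT p c (N + 1 + 1) j + (p : ℤ_[p]) ^ (N + 1 + 1) * w (N + 1) -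
          (TT p c (N + 1) j + (p : ℤ_[p]) ^ (N + 1) * w N) =
          (TT p c (N + 1 + 1) j - TT p c (N + 1) j) +
          (p : ℤ_[p]) ^ (N + 1) * (p * w (N + 1) - w N) := by ring
      rw [h3]
      exact dvd_add h2 (dvd_mul_right _ _)
    obtain ⟨y, hy⟩ := h1
    rw [hy, norm_mul, norm_pow, hpinv]
    have h4 : (0 : ℝ) ≤ (p : ℝ)⁻¹ := by positivity
    have h5 : (p : ℝ)⁻¹ ≤ 1 := by
      apply inv_le_one_of_one_le₀
      exact_mod_cast hp.out.one_lt.le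
    calc ((p : ℝ)⁻¹) ^ (N + 1) * ‖y‖ ≤ ((p : ℝ)⁻¹) ^ (N + 1) * 1 :=
          mul_le_mul_of_nonneg_left (PadicInt.norm_le_one y) (by positivity)
      _ = ((p : ℝ)⁻¹) ^ N * (p : ℝ)⁻¹ := by rw [mul_one, pow_succ]
      _ ≤ ((p : ℝ)⁻¹) ^ N * 1 := mul_le_mul_of_nonneg_left h5 (by positivity)
      _ = ((p : ℝ)⁻¹) ^ N := mul_one _
  have hlt : (p : ℝ)⁻¹ < 1 := inv_lt_one_of_one_lt₀ (by exact_mod_cast hp.out.one_lt)
  have hcauchy : CauchySeq V := cauchySeq_of_le_geometric _ 1 hlt hdist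
  obtain ⟨z, hz⟩ := cauchySeq_tendsto_of_complete hcauchy
  have hzn : ‖z‖ = 1 := by
    have h1 := hz.norm
    simp only [hVn] at h1
    exact (tendsto_nhds_unique h1 tendsto_const_nhds)
  refine ⟨(z : ℚ_[p]), ?_, ?_⟩
  · rw [← PadicInt.norm_def]; exact hzn
  · rw [← tendsto_add_atTop_iff_nat 1]
    have h1 : Tendsto (fun N => ((V N : ℤ_[p]) : ℚ_[p])) atTop (𝓝 (z : ℚ_[p])) :=
      (continuous_subtype_val.tendsto z).comp hz
    refine h1.congr fun N => ?_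
    have hj0 : (j : ℚ_[p]) ≠ 0 := by exact_mod_cast (show j ≠ 0 by omega)
    have hp0 : (p : ℚ_[p]) ≠ 0 := by exact_mod_cast hp.out.ne_zero
    rw [eq_div_iff (mul_ne_zero hj0 (pow_ne_zero _ hp0))]
    have h2 : V N * ((j : ℤ_[p]) * (p : ℤ_[p]) ^ (N + 1)) = SS p (N + 1) j := by
      have h3 := hw N
      rw [← hD] at h3
      have h4 : ((D⁻¹ : (ℤ_[p])ˣ) : ℤ_[p]) * (D : ℤ_[p]) = 1 := D.inv_mul
      rw [hV]
      simp only
      linear_combination (-((D⁻¹ : (ℤ_[p])ˣ) : ℤ_[p])) * h3 + (SS p (N + 1) j) * h4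
    have h5 := congrArg (fun z : ℤ_[p] => (z : ℚ_[p])) h2
    push_cast at h5
    exact h5

omit hp in
theorem zetaUnit {m r : ℕ} (hm : 1 ≤ m) (hmp : 2 * m + 3 ≤ p) (hr : 2 ≤ r)
    (hrm : p - 1 ∣ r - 1 + 2 * m) (hB : ¬ (p : ℤ) ∣ (bernoulli (2 * m)).num) : ZetaUnit p r := by
  intro _
  obtain ⟨z, hz, ht⟩ := key (p := p) (k := 2 * m) (j := r - 1) (by omega) (by omega)
    (even_two_mul m) (by omega) hrm hB
  refine ⟨z, hz, ht.congr fun N => ?_⟩
  unfold zetaApprox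
  rw [coe_SS N (by omega)]
  congr 2
  rw [Nat.cast_sub (by omega)]
  simp

end Pool.Agent.TH350.SC
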