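import Mathlib
import Pool.Agent.TH350.SC.Main
import Pool.Agent.Results.MP_a3a416_nt.SparseIrregular
import Pool.Agent.Results.MP_a3a416_nt.IrregularRuns

set_option autoImplicit false

open Finset Filter Topology

namespace Pool.Agent.TH350.SC

lemma good {p m : ℕ} (_hp : p.Prime) (hm : 1 ≤ m) (hmp : 2 * m + 3 ≤ p)
    (hB : ¬ (p : ℤ) ∣ (bernoulli (2 * m)).num) : GoodClass p m := by
  intro r hr hrm _
  exact zetaUnit hm hmp hr hrm hB

lemma badCount_le {p K : ℕ} (hp : p.Prime) :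
    badCount p K ≤ Pool.Agent.Results.MP_a3a416_nt.SparseIrregular.irregularCount p K := by
  classical
  unfold badCount Pool.Agent.Results.MP_a3a416_nt.SparseIrregular.irregularCount
  refine Finset.card_le_card ?_
  intro m hm
  rw [Finset.mem_filter, Finset.mem_Icc] at hm ⊢
  refine ⟨hm.1, ?_⟩
  by_contra hn
  exact hm.2.2 (good hp hm.1.1 hm.2.1 hn)

theorem sparse (η : ℝ) (hη : 0 < η) (ψ : ℕ → ℝ) (hψ : Tendsto ψ atTop atTop) :
    Tendsto (fun X : ℕ =>
        (({p : ℕ | p ≤ X ∧ p.Prime ∧ ∀ K : ℕ,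
            (badCount p K : ℝ) ≤ ψ p * ((K : ℝ) ^ 2 * Real.log p / p) ^ (1 + η)}.ncard : ℕ) : ℝ)
          / (({p : ℕ | p ≤ X ∧ p.Prime}.ncard : ℕ) : ℝ))
      atTop (𝓝 1) := by
  have h := Pool.Agent.Results.MP_a3a416_nt.SparseIrregular.result η hη ψ hψ
  refine tendsto_of_tendsto_of_tendsto_of_le_of_le h tendsto_const_nhds ?_ ?_
  · intro X
    have hfin : {p : ℕ | p ≤ X ∧ p.Prime ∧ ∀ K : ℕ,
            (badCount p K : ℝ) ≤ ψ p * ((K : ℝ) ^ 2 * Real.log p / p) ^ (1 + η)}.Finite :=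
      (Set.finite_le_nat X).subset fun p hp => hp.1
    refine div_le_div_of_nonneg_right ?_ (Nat.cast_nonneg _)
    refine Nat.cast_le.2 (Set.ncard_le_ncard ?_ hfin)
    rintro p ⟨h1, h2, h3⟩
    exact ⟨h1, h2, fun K => (Nat.cast_le.2 (badCount_le h2)).trans (h3 K)⟩
  · intro X
    have hfin : {p : ℕ | p ≤ X ∧ p.Prime}.Finite :=
      (Set.finite_le_nat X).subset fun p hp => hp.1
    refine div_le_one_of_le₀ ?_ (Nat.cast_nonneg _)
    refine Nat.cast_le.2 (Set.ncard_le_ncard ?_ hfin)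
    rintro p ⟨h1, h2, -⟩
    exact ⟨h1, h2⟩

theorem none_small (ψ : ℕ → ℝ) (hψ : Tendsto ψ atTop atTop) :
    Tendsto (fun X : ℕ =>
        (({p : ℕ | p ≤ X ∧ p.Prime ∧ ∀ m : ℕ, 1 ≤ m → 2 * m + 3 ≤ p →
            (m : ℝ) * ψ p ≤ √(p / Real.log p) → GoodClass p m}.ncard : ℕ) : ℝ)
          / (({p : ℕ | p ≤ X ∧ p.Prime}.ncard : ℕ) : ℝ))
      atTop (𝓝 1) := by
  classical
  obtain ⟨P, hP⟩ := eventually_atTop.1 (hψ.eventually_ge_atTop 2)
  set ψ' : ℕ → ℝ := fun p => if p < P then -1 else ψ p with hψ'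
  have hψ2 : Tendsto ψ' atTop atTop := by
    refine hψ.congr' ?_
    filter_upwards [eventually_ge_atTop P] with p hp
    rw [hψ']
    simp only
    rw [if_neg (by omega)]
  have h := sparse 1 one_pos ψ' hψ2
  refine tendsto_of_tendsto_of_tendsto_of_le_of_le h tendsto_const_nhds ?_ ?_
  · intro X
    have hfin : {p : ℕ | p ≤ X ∧ p.Prime ∧ ∀ m : ℕ, 1 ≤ m → 2 * m + 3 ≤ p →
            (m : ℝ) * ψ p ≤ √(p / Real.log p) → GoodClass p m}.Finite :=
      (Set.finite_le_nat X).subset fun p hp => hp.1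
    refine div_le_div_of_nonneg_right ?_ (Nat.cast_nonneg _)
    refine Nat.cast_le.2 (Set.ncard_le_ncard ?_ hfin)
    rintro p ⟨h1, h2, h3⟩
    refine ⟨h1, h2, fun m hm hmp hle => by_contra fun hpow => ?_⟩
    have hp0 : (0 : ℝ) < p := Nat.cast_pos.2 h2.pos
    have hlog : 0 < Real.log p := Real.log_pos (by exact_mod_cast h2.one_lt)
    have hm0 : (0 : ℝ) < m := Nat.cast_pos.2 (by omega)
    have hc : 1 ≤ badCount p m := by
      unfold badCount
      rw [Nat.one_le_iff_ne_zero, ← Nat.pos_iff_ne_zero, Finset.card_pos]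
      exact ⟨m, by rw [Finset.mem_filter, Finset.mem_Icc]; exact ⟨⟨hm, le_rfl⟩, hmp, hpow⟩⟩
    have h4 := h3 m
    have h5 : (1 : ℝ) ≤ badCount p m := by exact_mod_cast hc
    have h6 : 0 < (m : ℝ) ^ 2 * Real.log p / p := by positivity
    have h7 : ((m : ℝ) ^ 2 * Real.log p / p) ^ ((1 : ℝ) + 1) = ((m : ℝ) ^ 2 * Real.log p / p) ^ 2 := by
      rw [← Real.rpow_natCast]; norm_num
    rw [h7] at h4
    by_cases hpP : p < P
    · rw [hψ'] at h4
      simp only [if_pos hpP] at h4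
      have : 0 < ((m : ℝ) ^ 2 * Real.log p / p) ^ 2 := by positivity
      linarith
    · rw [hψ'] at h4
      simp only [if_neg hpP] at h4
      have h8 := hP p (by omega)
      set t : ℝ := (m : ℝ) ^ 2 * Real.log p / p with ht
      -- `t ψ^2 ≤ 1`
      have h9 : t * ψ p ^ 2 ≤ 1 := by
        have h10 : ((m : ℝ) * ψ p) ^ 2 ≤ p / Real.log p := by
          have h11 : 0 ≤ (m : ℝ) * ψ p := by positivity
          calc ((m : ℝ) * ψ p) ^ 2 ≤ √(p / Real.log p) ^ 2 := by gcongr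
            _ = _ := Real.sq_sqrt (by positivity)
        rw [le_div_iff₀ hlog] at h10
        rw [ht, div_mul_eq_mul_div, div_le_one hp0]
        nlinarith
      have h12 : t ≤ 1 / 4 := by
        have : t * 4 ≤ t * ψ p ^ 2 := by
          apply mul_le_mul_of_nonneg_left _ h6.le
          nlinarith
        linarith
      have h13 : ψ p * t ^ 2 ≤ t * ψ p ^ 2 * t := by
        have : ψ p ≤ ψ p ^ 2 := by nlinarith
        nlinarith [mul_le_mul_of_nonneg_right this (sq_nonneg t)]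
      have h14 : t * ψ p ^ 2 * t ≤ 1 * t := mul_le_mul_of_nonneg_right h9 h6.le
      linarith
  · intro X
    have hfin : {p : ℕ | p ≤ X ∧ p.Prime}.Finite :=
      (Set.finite_le_nat X).subset fun p hp => hp.1
    refine div_le_one_of_le₀ ?_ (Nat.cast_nonneg _)
    refine Nat.cast_le.2 (Set.ncard_le_ncard ?_ hfin)
    rintro p ⟨h1, h2, -⟩
    exact ⟨h1, h2⟩

/-- windows -/
theorem window (p : ℕ) (hp : p.Prime) (a l : ℕ) (hl : 1 ≤ l)
    (ha : 2 * a ≤ (l + 1) * (2 * l + 1)) (hpl : 2 * (a + l) + 3 ≤ p) :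
    ∃ m : ℕ, a < m ∧ m ≤ a + l ∧ GoodClass p m := by
  obtain ⟨m, h1, h2, h3⟩ :=
    Pool.Agent.Results.MP_a3a416_nt.IrregularRuns.result p hp a l hl ha hpl
  exact ⟨m, h1, h2, good hp (by omega) (by omega) h3⟩

end Pool.Agent.TH350.SC
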