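import Mathlib
import Pool.Agent.TH350.SC.Fin
import Pool.Agent.TH350.RC.Main

set_option autoImplicit false

open Finset

namespace Pool.Agent.TH350.SC

open Classical in
/-- residue classes of the index -/
theorem classes (p d : ℕ) (hp : p.Prime) (hd : 1 ≤ d) (hpd : d ^ Nat.totient (2 * d) < p)
    (c : ℤ) (K : ℕ) (hK : 2 * K + 3 ≤ p) :
    K < 4 ^ (d - 1) * ({m ∈ Finset.Icc 1 K | ((m : ℕ) : ℤ) ≡ c [ZMOD d] ∧
      GoodClass p m}.card + 2) ^ 2 := by
  refine (Pool.Agent.TH350.RC.main p d hp hd hpd c K hK).trans_le ?_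
  refine Nat.mul_le_mul_left _ (Nat.pow_le_pow_left (Nat.add_le_add_right
    (Finset.card_le_card ?_) 2) 2)
  intro m hm
  rw [Finset.mem_filter, Finset.mem_Icc] at hm ⊢
  exact ⟨hm.1, hm.2.1, good hp hm.1.1 (by omega) hm.2.2⟩

end Pool.Agent.TH350.SC
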