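import Mathlib
import Pool.Agent.TH350.SC.Fin
import Pool.Agent.TH10.RP.Final

set_option autoImplicit false

open Finset

namespace Pool.Agent.TH350.SC

open Classical in
/-- counting, every prime -/
theorem count (p : ℕ) (hp : p.Prime) (K : ℕ) (hK : 2 * K + 3 ≤ p) :
    K ^ 3 ≤ 10 ^ 6 * {m ∈ Finset.Icc 1 K | GoodClass p m}.card ^ 4 := by
  refine ((Pool.Agent.TH10.RP.all_parts p hp K hK).1).trans ?_
  refine Nat.mul_le_mul_left _ (Nat.pow_le_pow_left (Finset.card_le_card ?_) 4)
  intro m hm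
  rw [Finset.mem_filter, Finset.mem_Icc] at hm ⊢
  exact ⟨hm.1, good hp (by omega) (by omega) hm.2⟩

end Pool.Agent.TH350.SC
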